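import Pool.Agent.H60.GR.FZero

/-!
# MP_453f59_nt: the first zero is prime if it is not too early

`a(1) = N - 2`, `a(n) = a(n-1) - gcd(a(n-1), n-1)`, and `f(N)` is the first zero.

The sum `T = a(n) + n` changes only when the gcd `g` is not `1`, to `T - g + 1`, `g` divides `T`, and at the
zero `T = f(N)`.  For `n ≥ 3` the sum `T` is odd.  The value `a(n)` goes down by one until it has a common
factor with `T`, so this takes fewer steps than the least prime factor of `T`, which is at most `g`.  A piece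
of `u` steps with gcd one and one step with gcd `g` has `u + 1 ≤ g` steps and lowers `a` by `u + g`; after a
step with `g = 3` the sum is `1` modulo `3`, and the next nontrivial gcd is at least `5`.  Altogether
`7 t ≤ 4 h + 3 s + c` for the number `t` of steps from the value `h` to zero, `s` the least prime factor of the
last `T`.  If `f(N)` is not prime then `s² ≤ f(N)`.
-/

set_option autoImplicit false

namespace Pool.Agent.Results.MP_453f59_nt.LateZeroPrime

/-- The sequence `a(n)`, `n ≥ 1` (the value at `0` is not used). -/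
def a (N : ℕ) : ℕ → ℤ
  | 0 => 0
  | 1 => (N : ℤ) - 2
  | n + 2 => a N (n + 1) - (Int.gcd (a N (n + 1)) ((n : ℤ) + 1) : ℤ)

/-- `f(N)`: the least index `n ≥ 1` with `a(n) = 0`. -/
noncomputable def f (N : ℕ) : ℕ := sInf {n : ℕ | 1 ≤ n ∧ a N n = 0}

theorem a_succ (N n : ℕ) (hn : 1 ≤ n) : a N (n + 1) = a N n - (Int.gcd (a N n) (n : ℤ) : ℤ) := by
  obtain ⟨k, rfl⟩ : ∃ k, n = k + 1 := ⟨n - 1, by omega⟩
  show a N (k + 1) - (Int.gcd (a N (k + 1)) ((k : ℤ) + 1) : ℤ) = _
  push_cast
  rfl

theorem step (N n : ℕ) (hn : 1 ≤ n) (hpos : 0 < (a N n).toNat) :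
    a N (n + 1) = ((((a N n).toNat - Nat.gcd (a N n).toNat n : ℕ)) : ℤ) := by
  obtain ⟨x, hx⟩ : ∃ x : ℕ, a N n = x := ⟨(a N n).toNat, by omega⟩
  rw [a_succ N n hn, hx, Int.toNat_natCast]
  rw [hx, Int.toNat_natCast] at hpos
  have h1 : Int.gcd (x : ℤ) (n : ℤ) = Nat.gcd x n := Int.gcd_natCast_natCast x n
  rw [h1]
  have h2 : Nat.gcd x n ≤ x := Nat.gcd_le_left n hpos
  omega

theorem rec1 (N : ℕ) : H60GR.Rec1 fun n => (a N n).toNat := by
  intro n hn hpos
  show (a N (n + 1)).toNat = _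
  rw [step N n hn hpos, Int.toNat_natCast]

theorem f_eq {N z : ℕ} (hz : 2 ≤ z) (h0 : (a N z).toNat = 0)
    (hpos : ∀ i, 1 ≤ i → i < z → 0 < (a N i).toNat) : f N = z := by
  have h1 : a N z = 0 := by
    have h2 := step N (z - 1) (by omega) (hpos (z - 1) (by omega) (by omega))
    rw [show z - 1 + 1 = z by omega] at h2
    rw [h2] at h0 ⊢
    rw [Int.toNat_natCast] at h0
    rw [h0]
    rfl
  have h3 : z ∈ {n : ℕ | 1 ≤ n ∧ a N n = 0} := ⟨by omega, h1⟩
  have h4 : f N ∈ {n : ℕ | 1 ≤ n ∧ a N n = 0} := Nat.sInf_mem ⟨z, h3⟩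
  have h5 : f N ≤ z := Nat.sInf_le h3
  by_contra hne
  have h6 := hpos (f N) h4.1 (lt_of_le_of_ne h5 hne)
  rw [h4.2] at h6
  exact lt_irrefl _ h6

/-- The first zero by computation. -/
def run : ℕ → ℕ → ℕ → ℕ
  | 0, n, _ => n
  | k + 1, n, h => if h = 0 then n else run k (n + 1) (h - Nat.gcd h n)

theorem run_spec {α : ℕ → ℕ} (hrec : H60GR.Rec1 α) : ∀ k n h, 1 ≤ n → α n = h → h ≤ k →
    n ≤ run k n h ∧ α (run k n h) = 0 ∧ ∀ i, n ≤ i → i < run k n h → 0 < α i := by
  intro k
  induction k with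
  | zero =>
    intro n h hn hα hk
    refine ⟨le_rfl, ?_, ?_⟩
    · show α n = 0
      omega
    · intro i h1 h2
      have h3 : i < n := h2
      omega
  | succ k ih =>
    intro n h hn hα hk
    by_cases h0 : h = 0
    · have e : run (k + 1) n h = n := by
        show (if h = 0 then n else _) = n
        rw [if_pos h0]
      rw [e]
      exact ⟨le_rfl, by omega, fun i h1 h2 => by omega⟩
    · have e : run (k + 1) n h = run k (n + 1) (h - Nat.gcd h n) := by
        show (if h = 0 then n else _) = _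
        rw [if_neg h0]
      rw [e]
      have h1 := hrec n hn (by omega)
      rw [hα] at h1
      have h2 : 0 < Nat.gcd h n := Nat.gcd_pos_of_pos_left n (by omega)
      obtain ⟨h3, h4, h5⟩ := ih (n + 1) (h - Nat.gcd h n) (by omega) h1 (by omega)
      refine ⟨by omega, h4, fun i h6 h7 => ?_⟩
      rcases Nat.lt_or_ge n i with h8 | h8
      · exact h5 i (by omega) h7
      · rw [show i = n by omega, hα]
        omega

/-- The primes from `3` to `163`. -/
def primes : List ℕ := [3, 5, 7, 11, 13, 17, 19, 23, 29, 31, 37, 41, 43, 47, 53, 59, 61, 67, 71, 73, 79,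
  83, 89, 97, 101, 103, 107, 109, 113, 127, 131, 137, 139, 149, 151, 157, 163]

theorem primes_prime : ∀ p ∈ primes, p.Prime := by
  intro p hp
  simp only [primes, List.mem_cons, List.not_mem_nil, or_false] at hp
  rcases hp with rfl | rfl | rfl | rfl | rfl | rfl | rfl | rfl | rfl | rfl | rfl | rfl | rfl | rfl |
    rfl | rfl | rfl | rfl | rfl | rfl | rfl | rfl | rfl | rfl | rfl | rfl | rfl | rfl | rfl | rfl |
    rfl | rfl | rfl | rfl | rfl | rfl | rfl <;> norm_num

theorem small_run : ∀ N < 164, 4 ≤ N → run N 1 (N - 2) ∈ primes := by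
  decide +kernel

theorem small {N : ℕ} (hN : 4 ≤ N) (h : N < 164) : (f N).Prime := by
  have h1 : (a N 1).toNat = N - 2 := by
    show ((N : ℤ) - 2).toNat = N - 2
    omega
  obtain ⟨h2, h3, h4⟩ := run_spec (rec1 N) N 1 (N - 2) le_rfl h1 (by omega)
  have h5 : run N 1 (N - 2) ≠ 1 := by
    intro h6
    rw [h6, h1] at h3
    omega
  rw [f_eq (by omega) h3 h4]
  exact primes_prime _ (small_run N h hN)

theorem bound {N : ℕ} (hN : 4 ≤ N) : 7 * f N ≤ 4 * N + 3 + 3 * (f N).minFac := by
  have h1 : (a N 1).toNat = N - 2 := by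
    show ((N : ℤ) - 2).toNat = N - 2
    omega
  have h2 : (a N 2).toNat = N - 3 := by
    have := rec1 N 1 le_rfl (by show 0 < (a N 1).toNat; omega)
    rw [Nat.gcd_one_right] at this
    have h3 : (a N 2).toNat = (a N 1).toNat - 1 := this
    omega
  have h3 : (a N 3).toNat = N - 3 - Nat.gcd (N - 3) 2 := by
    have := rec1 N 2 (by norm_num) (by show 0 < (a N 2).toNat; omega)
    have h4 : (a N 3).toNat = (a N 2).toNat - Nat.gcd (a N 2).toNat 2 := this
    rw [h4, h2]
  obtain ⟨h, hh⟩ : ∃ h, h = (a N 3).toNat := ⟨_, rfl⟩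
  have h4 : Even h ∧ h + 4 ≤ N := by
    rw [hh, h3]
    rcases Nat.even_or_odd (N - 3) with h5 | h5
    · have h6 : Nat.gcd (N - 3) 2 = 2 := Nat.gcd_eq_right h5.two_dvd
      rw [h6]
      refine ⟨(Nat.even_sub (by rcases h5 with ⟨k, hk⟩; omega)).2 (iff_of_true h5 (by decide)), ?_⟩
      omega
    · have h6 : Nat.gcd (N - 3) 2 = 1 := Nat.coprime_two_right.2 h5
      rw [h6]
      refine ⟨?_, by omega⟩
      rcases h5 with ⟨k, hk⟩
      exact ⟨k, by omega⟩
  rcases Nat.eq_zero_or_pos h with h0 | h0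
  · have h5 : f N = 3 := by
      refine f_eq (by norm_num) (by omega) fun i h6 h7 => ?_
      have h8 : i = 1 ∨ i = 2 := by omega
      rcases h8 with rfl | rfl
      · omega
      · omega
    rw [h5]
    have h6 := (Nat.minFac_prime (show 3 ≠ 1 by norm_num)).two_le
    omega
  · have hodd : Odd (3 + h) := by
      rcases h4.1 with ⟨k, hk⟩
      exact ⟨k + 1, by omega⟩
    obtain ⟨t, ht0, htz, htp, ht⟩ := H60GR.descent1 (rec1 N) h 3 (by norm_num) hh.symm h0 hodd
    have h5 : f N = 3 + t := by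
      refine f_eq (by omega) htz fun i h6 h7 => ?_
      rcases Nat.lt_or_ge i 3 with h8 | h8
      · have h9 : i = 1 ∨ i = 2 := by omega
        rcases h9 with rfl | rfl
        · omega
        · omega
      · have h9 := htp (i - 3) (by omega)
        have h10 : 0 < (a N (3 + (i - 3))).toNat := h9
        rwa [show 3 + (i - 3) = i by omega] at h10
    rw [h5]
    have h6 : H60GR.d3 (3 + h) ≤ 1 := by
      unfold H60GR.d3
      split_ifs <;> omega
    omega

/-- Let `N ≥ 4`.  Then `7 f(N) ≤ 4 N + 3 + 3 s`, where `s` is the least prime factor of `f(N)`.  If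
`f(N) ≥ 3 N / 5` then `f(N)` is prime. -/
theorem result (N : ℕ) (hN : 4 ≤ N) :
    7 * f N ≤ 4 * N + 3 + 3 * (f N).minFac ∧ (3 * N ≤ 5 * f N → (f N).Prime) := by
  refine ⟨bound hN, fun h => ?_⟩
  rcases Nat.lt_or_ge N 164 with h1 | h1
  · exact small hN h1
  · by_contra hnp
    have h2 := bound hN
    have h3 := Nat.minFac_sq_le_self (show 0 < f N by omega) hnp
    rw [sq] at h3
    obtain ⟨s, hs⟩ : ∃ s, s = (f N).minFac := ⟨_, rfl⟩
    rw [← hs] at h2 h3
    have h4 : f N ≤ 9 + 9 * s := by omega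
    have h5 : s ≤ 9 := by
      by_contra h6
      nlinarith
    omega

end Pool.Agent.Results.MP_453f59_nt.LateZeroPrime
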